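import Mathlib

/-!
# Decomposable blocks of primitive axial algebras: the fields

Every block of a primitive axial algebra over `K` is indecomposable if and only if `K` is the field
with two elements. More precisely, blocks are indecomposable when all the eigenvalues lie
in `{0, 1}`, and for every `l ≠ 0, 1` there is a primitive axial algebra of dimension five with
eigenvalues `{0, 1, l}` and a decomposable block.
-/

set_option autoImplicit false

namespace Pool.Agent.Results.MP_89b943_al.WhichFields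

open Module.End Submodule

universe u v

section
variable {K : Type u} {V : Type v} [Field K] [AddCommGroup V] [Module K V]
  (μ : V →ₗ[K] V →ₗ[K] V)

/-- `a` is a primitive axis for the fusion law `(F, s)`. -/
def Axis (F : Set K) (s : K → K → Set K) (a : V) : Prop :=
  μ a a = a ∧ ⨆ l ∈ F, eigenspace (μ a) l = ⊤ ∧ (∀ l ∈ F, ∀ n ∈ F, ∀ x ∈ eigenspace (μ a) l,
    ∀ y ∈ eigenspace (μ a) n, μ x y ∈ ⨆ r ∈ s l n, eigenspace (μ a) r) ∧
  eigenspace (μ a) 1 = span K {a}

/-- `(V, X)` is a primitive axial algebra for the fusion law `(F, s)`. -/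
def Axial (F : Set K) (s : K → K → Set K) (X : Set V) : Prop :=
  1 ∈ F ∧ (∀ l n, s l n ⊆ F) ∧ (∀ x y, μ x y = μ y x) ∧ (∀ a ∈ X, Axis μ F s a) ∧
  ∀ S : Submodule K V, X ⊆ S → (∀ x ∈ S, ∀ y ∈ S, μ x y ∈ S) → S = ⊤

/-- `J` is an ideal of the algebra `B`. -/
def Idl (B J : Submodule K V) : Prop := J ≤ B ∧ ∀ x ∈ B, ∀ y ∈ J, μ x y ∈ J

/-- The block of `a`. -/
def blk (a : V) : Submodule K V := sInf {J | Idl μ ⊤ J ∧ a ∈ J}

/-- The algebra `B` is the sum of its proper ideals. -/
def Decomposable (B : Submodule K V) : Prop := sSup {J | Idl μ B J ∧ J ≠ B} = B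

/-- If all the eigenvalues are `0` or `1`, the blocks of the axes `a ≠ 0` are indecomposable. -/
theorem indecomposable {F : Set K} {s : K → K → Set K} {X : Set V} (hF : F ⊆ {0, 1})
    (h : Axial μ F s X) (a : V) (ha : a ∈ X) (h0 : a ≠ 0) : ¬ Decomposable μ (blk μ a) := by
  obtain ⟨-, -, hcomm, hax, -⟩ := h
  obtain ⟨hid, htop, -, hprim⟩ := hax a ha
  have h1 : ∀ x : V, μ a x ∈ span K {a} := by
    have hle : (⊤ : Submodule K V) ≤ (span K {a}).comap (μ a) := by
      rw [← htop]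
      refine iSup₂_le fun l hl => ?_
      rcases hF hl with rfl | hl
      · intro x hx
        rw [mem_eigenspace_iff, zero_smul] at hx
        rw [mem_comap, hx]
        exact zero_mem _
      · rw [Set.mem_singleton_iff] at hl
        subst hl
        rw [hprim]
        intro x hx
        obtain ⟨c, rfl⟩ := mem_span_singleton.1 hx
        rw [mem_comap, map_smul, hid]
        exact smul_mem _ _ (mem_span_singleton_self a)
    exact fun x => hle mem_top
  have hblk : blk μ a = span K {a} := by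
    refine le_antisymm (sInf_le ⟨⟨le_top, fun x _ y hy => ?_⟩, mem_span_singleton_self a⟩) ?_
    · obtain ⟨c, rfl⟩ := mem_span_singleton.1 hy
      rw [map_smul, hcomm]
      exact smul_mem _ _ (h1 x)
    · rw [span_singleton_le_iff_mem]
      rw [blk, mem_sInf]
      exact fun J hJ => hJ.2
  rw [hblk, Decomposable]
  intro hdec
  have hz : sSup {J | Idl μ (span K {a}) J ∧ J ≠ span K {a}} = ⊥ := by
    rw [sSup_eq_bot]
    rintro J ⟨⟨hJ, -⟩, hne⟩
    by_contra hbot
    obtain ⟨x, hx, hx0⟩ := J.ne_bot_iff.1 hbot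
    obtain ⟨c, rfl⟩ := mem_span_singleton.1 (hJ hx)
    have hc : c ≠ 0 := by
      rintro rfl
      exact hx0 (zero_smul _ _)
    apply hne
    refine le_antisymm hJ ?_
    rw [span_singleton_le_iff_mem]
    have := J.smul_mem c⁻¹ hx
    rwa [smul_smul, inv_mul_cancel₀ hc, one_smul] at this
  rw [hz] at hdec
  exact h0 (span_singleton_eq_bot.1 hdec.symm)

end

section example_

variable {K : Type u} [Field K] (t : K)

/-- The product on the basis `a, b, u, w, w'`. -/
def m : (Fin 5 → K) →ₗ[K] (Fin 5 → K) →ₗ[K] Fin 5 → K := LinearMap.mk₂ K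
  (fun x y => ![x 0 * y 0, x 1 * y 1, x 0 * y 1 + x 1 * y 0 + t * (x 0 * y 2 + x 2 * y 0) +
    t * (x 1 * y 2 + x 2 * y 1), x 2 * y 2, x 1 * y 3 + x 3 * y 1 + t * (x 1 * y 4 + x 4 * y 1)])
  (fun _ _ _ => by ext i; fin_cases i <;> simp <;> ring)
  (fun _ _ _ => by ext i; fin_cases i <;> simp <;> ring)
  (fun _ _ _ => by ext i; fin_cases i <;> simp <;> ring)
  (fun _ _ _ => by ext i; fin_cases i <;> simp <;> ring)

variable {t}

lemma ax (ht0 : t ≠ 0) (ht1 : t ≠ 1) (a : Fin 5 → K) (f g : (Fin 5 → K) → Fin 5 → K) (i : Fin 5)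
    (h : m t a a = a)
    (h0 : ∀ x, m t a (f x) = 0) (h2 : ∀ x, m t a (g x) = t • g x)
    (e : ∀ x, x = x i • a + f x + g x) : Axis (m t) {0, 1, t} (fun _ _ => {0, 1, t}) a := by
  have T : ⨆ l ∈ ({0, 1, t} : Set K), eigenspace (m t a) l = ⊤ := eq_top_iff.2 fun x _ => by
    rw [e x]
    exact add_mem (add_mem (mem_iSup_of_mem 1 (mem_iSup_of_mem (by simp) (smul_mem _ _ (by simpa))))
      (mem_iSup_of_mem 0 (mem_iSup_of_mem (by simp) (by simp [h0]))))
      (mem_iSup_of_mem t (mem_iSup_of_mem (by simp) (by simp [h2])))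
  refine ⟨h, T, fun _ _ _ _ _ _ _ _ => T ▸ mem_top, le_antisymm (fun x hx => ?_) (by simpa)⟩
  have a1 : m t a x = x := by simpa using hx
  -- `x = x i • a + f x + g x`, apply `m a` twice
  have a2 := congrArg (m t a) (e x)
  simp only [map_add, map_smul, h, h0, h2, a1] at a2
  have a3 := congrArg (m t a) a2
  simp only [map_add, map_smul, h, h2, a1, map_zero] at a3
  -- `x = x i • a + t g`, `x = x i • a + t² g`
  have a4 : (t * (t - 1)) • g x = 0 := by
    linear_combination (norm := module) a2 - a3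
  have hg : g x = 0 := by
    rcases smul_eq_zero.1 a4 with h5 | h5
    · exact absurd h5 (mul_ne_zero ht0 (sub_ne_zero.2 ht1))
    · exact h5
  rw [hg, smul_zero, add_zero, add_zero] at a2
  exact mem_span_singleton.2 ⟨x i, a2.symm⟩

theorem exists_decomposable (ht0 : t ≠ 0) (ht1 : t ≠ 1) :
    ∃ (μ : (Fin 5 → K) →ₗ[K] (Fin 5 → K) →ₗ[K] Fin 5 → K)
    (s : K → K → Set K) (X : Set (Fin 5 → K)), Axial μ {0, 1, t} s X ∧ ∃ a ∈ X, a ≠ 0 ∧
      Decomposable μ (blk μ a) := by
  let e : Fin 5 → Fin 5 → K := fun i => Pi.single i 1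
  have e2 : e 2 = m t (e 1) (e 0) := by ext i; fin_cases i <;> simp [m, e]
  have e3 : e 3 = m t (e 2) (e 2) := by ext i; fin_cases i <;> simp [m, e]
  have e4 : e 4 = m t (e 1) (e 3) := by ext i; fin_cases i <;> simp [m, e]
  have d : ∀ x : Fin 5 → K, x = x 0 • e 0 + x 1 • e 1 + x 2 • e 2 + x 3 • e 3 + x 4 • e 4 :=
    fun x => by ext i; fin_cases i <;> simp [e]
  let p : Fin 5 → Submodule K (Fin 5 → K) := fun i => LinearMap.ker (.proj i)
  have B : blk (m t) (e 0) = p 1 := le_antisymm (sInf_le ⟨⟨le_top, fun x _ y (h : y 1 = 0) => by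
    simp [p, m, h]⟩, by simp [p, e]⟩) (le_sInf fun J ⟨⟨_, h⟩, h0⟩ x (hx : x 1 = 0) => by
      have h2 := e2 ▸ h _ mem_top _ h0
      have h3 := e3 ▸ h _ mem_top _ h2
      have h4 := e4 ▸ h _ mem_top _ h3
      rw [d x, hx, zero_smul, add_zero]
      exact add_mem (add_mem (add_mem (smul_mem _ _ h0) (smul_mem _ _ h2)) (smul_mem _ _ h3))
        (smul_mem _ _ h4))
  have c1 : t * (0 : K) = 0 := mul_zero _
  refine ⟨m t, fun _ _ => {0, 1, t}, {e 0, e 1}, ⟨by simp, fun _ _ => le_rfl,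
    fun x y => by ext i; fin_cases i <;> simp [m] <;> ring, ?_, fun S h h' => ?_⟩, e 0, by simp,
    ?_, ?_⟩
  · rintro _ (rfl | rfl)
    · refine ax ht0 ht1 _ (fun x => ![0, x 1, -x 1 / t, x 3, x 4])
        (fun x => ![0, 0, x 2 + x 1 / t, 0, 0]) 0
        ?_ (fun x => ?_) (fun x => ?_) fun x => ?_ <;> ext i <;> fin_cases i <;>
        simp [m, e, -Matrix.add_cons, -Matrix.cons_add] <;> field_simp <;> ring
    · refine ax ht0 ht1 _ (fun x => ![x 0, 0, -x 0 / t, x 3, -x 3 / t])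
        (fun x => ![0, 0, x 2 + x 0 / t, 0, x 4 + x 3 / t]) 1
        ?_ (fun x => ?_) (fun x => ?_) fun x => ?_ <;> ext i <;> fin_cases i <;>
        simp [m, e, -Matrix.add_cons, -Matrix.cons_add] <;> field_simp <;> ring
  · have h0 : e 0 ∈ S := h (by simp)
    have h1 : e 1 ∈ S := h (by simp)
    have h2 := e2 ▸ h' _ h1 _ h0
    have h3 := e3 ▸ h' _ h2 _ h2
    have h4 := e4 ▸ h' _ h1 _ h3
    exact eq_top_iff.2 fun x _ => d x ▸ add_mem (add_mem (add_mem (add_mem (smul_mem _ _ h0)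
      (smul_mem _ _ h1)) (smul_mem _ _ h2)) (smul_mem _ _ h3)) (smul_mem _ _ h4)
  · intro h
    simpa [e] using congrFun h 0
  rw [Decomposable, B]
  refine le_antisymm (sSup_le fun J h => h.1.1) fun x (hx : x 1 = 0) => ?_
  rw [← sub_add_cancel x (x 4 • e 4)]
  have k := fun J (h : Idl (m t) (p 1) J ∧ J ≠ p 1) =>
    le_sSup (s := {J | Idl (m t) (p 1) J ∧ J ≠ p 1}) (a := J) h
  refine add_mem (k (p 1 ⊓ p 4) ⟨⟨inf_le_left, fun x (h : x 1 = 0) y ⟨(h1 : y 1 = 0), _⟩ =>
    by simp [p, m, h, h1]⟩, fun h => by simpa [p, e] using h.ge (show e 4 ∈ p 1 by simp [p, e])⟩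
    (by simp [p, e, hx])) (k (p 0 ⊓ p 1 ⊓ p 2 ⊓ p 3) ⟨⟨inf_le_left.trans
      (inf_le_left.trans inf_le_right), fun x (h : x 1 = 0) y hy => ?_⟩,
      fun h => by simpa [p, e] using h.ge (show e 0 ∈ p 1 by simp [p, e])⟩ (by simp [p, e]))
  simp only [p, mem_inf, LinearMap.mem_ker, LinearMap.proj_apply] at hy
  simp [p, m, h, hy]

end example_

/-- **The answer to Q1 for every field.** Let `K` be a field. (1) If the eigenvalues of the fusion
law lie in `{0, 1}`, then the block of every axis `a ≠ 0` of every primitive axial algebra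
over `K` is indecomposable. (2) For every `t ≠ 0, 1` there is a primitive axial algebra of
dimension five over `K` with eigenvalues `{0, 1, t}` and an axis with a decomposable block. (3) So
all the blocks of (non-zero axes of) primitive axial algebras over `K` are indecomposable if and
only if `K = {0, 1}`. -/
theorem result (K : Type u) [Field K] :
    (∀ (V : Type u) [AddCommGroup V] [Module K V] (μ : V →ₗ[K] V →ₗ[K] V) (F : Set K)
      (s : K → K → Set K) (X : Set V), F ⊆ {0, 1} → Axial μ F s X → ∀ a ∈ X, a ≠ 0 →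
        ¬ Decomposable μ (blk μ a)) ∧
    (∀ t : K, t ≠ 0 → t ≠ 1 → ∃ (μ : (Fin 5 → K) →ₗ[K] (Fin 5 → K) →ₗ[K] Fin 5 → K)
      (s : K → K → Set K) (X : Set (Fin 5 → K)), Axial μ {0, 1, t} s X ∧
        ∃ a ∈ X, a ≠ 0 ∧ Decomposable μ (blk μ a)) ∧
    ((∀ (V : Type u) [AddCommGroup V] [Module K V] (μ : V →ₗ[K] V →ₗ[K] V) (F : Set K)
      (s : K → K → Set K) (X : Set V), Axial μ F s X → ∀ a ∈ X, a ≠ 0 →
        ¬ Decomposable μ (blk μ a)) ↔ ∀ x : K, x = 0 ∨ x = 1) := by
  refine ⟨fun V _ _ μ F s X hF h a ha h0 => indecomposable μ hF h a ha h0,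
    fun t h0 h1 => exists_decomposable h0 h1, fun h x => ?_, fun h V _ _ μ F s X hA a ha h0 =>
      indecomposable μ (fun x _ => h x) hA a ha h0⟩
  by_contra hx
  push Not at hx
  obtain ⟨μ, s, X, hA, a, ha, h0, hd⟩ := exists_decomposable hx.1 hx.2
  exact h _ μ _ s X hA a ha h0 hd

end Pool.Agent.Results.MP_89b943_al.WhichFields
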